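import Pool.Agent.H40.VC.Numbers

set_option autoImplicit false

/-!
# The arithmetic at the end, explicit
-/

namespace Pool.Agent.H51.VC.Num

lemma log_le_of (x : ℝ) (n : ℕ) (hx : 0 < x) (h : x ≤ (2.7 : ℝ) ^ n) : Real.log x ≤ n := by
  rw [Real.log_le_iff_le_exp hx]
  have h1 : (2.7 : ℝ) ≤ Real.exp 1 := by
    have := Real.exp_one_gt_d9
    linarith
  calc x ≤ (2.7 : ℝ) ^ n := h
    _ ≤ (Real.exp 1) ^ n := pow_le_pow_left₀ (by norm_num) h1 n
    _ = Real.exp n := by rw [← Real.exp_nat_mul, mul_one]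

lemma explicit_ineq (b : ℕ) (B s l : ℝ) (hB : B = (b : ℝ) ^ 2 + 1)
    (hs : s = Real.log ((b : ℝ) + 2)) (hl : 200 * (B * s) ≤ l) :
    1 ≤ l ∧ 32 * (B * (3 + 2 * l)) ≤ Real.exp l ∧
    Real.log 2 + 2 + 2 * (B * (3 + 2 * l)) / Real.exp l + (3 + 2 * l) / 48 +
      B * (1 + Real.log (200 * B ^ 2 * (3 + 2 * l))) +
      (1 / 4) * Real.log (48 * (B * (3 + 2 * l))) < (1 / 4) * l := by
  have hb : (0 : ℝ) ≤ b := Nat.cast_nonneg b
  have hB1 : 1 ≤ B := by rw [hB]; nlinarith [sq_nonneg (b : ℝ)]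
  have hBpos : 0 < B := by linarith
  have hl2 : 0.69 ≤ Real.log 2 := by have := Real.log_two_gt_d9; linarith
  have hl2' : Real.log 2 ≤ 0.7 := by have := Real.log_two_lt_d9; linarith
  have hs0 : 0.69 ≤ s := by
    rw [hs]
    exact hl2.trans (Real.log_le_log (by norm_num) (by linarith))
  have hBs : s ≤ B * s := by nlinarith
  have hl100 : 138 ≤ l := by nlinarith
  have hlpos : 0 < l := by linarith
  have hlogB : Real.log B ≤ 2 * s := by
    have h1 : B ≤ ((b : ℝ) + 2) ^ 2 := by rw [hB]; nlinarith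
    have h2 := Real.log_le_log hBpos h1
    rw [Real.log_pow, ← hs] at h2
    push_cast at h2
    exact h2
  have hlogB0 : 0 ≤ Real.log B := Real.log_nonneg hB1
  have h40 : Real.log 40 ≤ (4 : ℕ) := log_le_of 40 4 (by norm_num) (by norm_num)
  have h48 : Real.log 48 ≤ (4 : ℕ) := log_le_of 48 4 (by norm_num) (by norm_num)
  have h5 : Real.log 5 ≤ (2 : ℕ) := log_le_of 5 2 (by norm_num) (by norm_num)
  have h200 : Real.log 200 ≤ (6 : ℕ) := log_le_of 200 6 (by norm_num) (by norm_num)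
  have h160 : Real.log 160 ≤ (6 : ℕ) := log_le_of 160 6 (by norm_num) (by norm_num)
  push_cast at h40 h48 h5 h200 h160
  -- `log l`
  have hA : Real.log l ≤ l / 40 + 3 := by
    have h1 := Real.log_le_sub_one_of_pos (show 0 < l / 40 by positivity)
    rw [Real.log_div hlpos.ne' (by norm_num)] at h1
    linarith
  have hA' : B * Real.log l ≤ l / 40 + B * (3 + Real.log B) := by
    have h1 := Real.log_le_sub_one_of_pos (show 0 < l / (40 * B) by positivity)
    rw [Real.log_div hlpos.ne' (by positivity), Real.log_mul (by norm_num) hBpos.ne'] at h1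
    have h2 : Real.log l ≤ l / (40 * B) + (3 + Real.log B) := by linarith
    have h3 := mul_le_mul_of_nonneg_left h2 hBpos.le
    have h4 : B * (l / (40 * B) + (3 + Real.log B)) = l / 40 + B * (3 + Real.log B) := by
      field_simp
    rw [h4] at h3
    exact h3
  have h35 : 3 + 2 * l ≤ 5 * l := by linarith
  have h3l : 0 < 3 + 2 * l := by linarith
  have hlog35 : Real.log (3 + 2 * l) ≤ 2 + Real.log l := by
    have h1 := Real.log_le_log h3l h35
    rw [Real.log_mul (by norm_num) hlpos.ne'] at h1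
    linarith
  have hlogl0 : 0 ≤ Real.log l := Real.log_nonneg (by linarith)
  -- the second inequality
  have hexp : 32 * (B * (3 + 2 * l)) ≤ Real.exp l := by
    have h1 : 32 * (B * (3 + 2 * l)) ≤ 160 * (B * l) := by
      have := mul_le_mul_of_nonneg_left h35 hBpos.le
      linarith
    refine h1.trans ?_
    rw [← Real.log_le_iff_le_exp (by positivity), Real.log_mul (by norm_num) (by positivity),
      Real.log_mul hBpos.ne' hlpos.ne']
    nlinarith
  refine ⟨by linarith, hexp, ?_⟩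
  have hT2 : 2 * (B * (3 + 2 * l)) / Real.exp l ≤ 1 / 16 := by
    rw [div_le_iff₀ (Real.exp_pos _)]
    linarith
  have hT4 : B * (1 + Real.log (200 * B ^ 2 * (3 + 2 * l))) ≤ l / 40 + B * (12 + 6 * s) := by
    rw [Real.log_mul (by positivity) h3l.ne', Real.log_mul (by norm_num) (by positivity),
      Real.log_pow]
    push_cast
    have h1 : B * (1 + (Real.log 200 + 2 * Real.log B + Real.log (3 + 2 * l))) ≤
        B * (9 + 2 * Real.log B + Real.log l) :=
      mul_le_mul_of_nonneg_left (by linarith) hBpos.le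
    have h2 : B * (3 * Real.log B) ≤ B * (6 * s) :=
      mul_le_mul_of_nonneg_left (by linarith) hBpos.le
    nlinarith
  have hT5 : (1 / 4) * Real.log (48 * (B * (3 + 2 * l))) ≤ 9 / 4 + s / 2 + l / 160 := by
    rw [Real.log_mul (by norm_num) (by positivity), Real.log_mul hBpos.ne' h3l.ne']
    linarith
  have hBs2 : 12 * B ≤ 17.4 * (B * s) := by nlinarith
  linarith

/-- The numbers, explicit. -/
theorem numbers (b : ℕ) (Λ : ℝ)
    (hΛ : Real.exp (200 * (((b : ℝ) ^ 2 + 1) * Real.log ((b : ℝ) + 2))) ≤ Λ) :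
    ∀ (e e1 η : ℝ) (t t1 K K1 : ℕ), e = 1 / Λ → t = ⌈2 * Λ ^ 2⌉₊ + 1 → K = ((t + 1) ^ b + 1) ^ b →
    e1 = 1 / (96 * ((b : ℝ) ^ 2 + 1)) → t1 = ⌈2 * Real.log K / e1⌉₊ + 1 →
    K1 = ((t1 + 1) ^ b + 1) ^ b → η = e + Real.log K / (2 * Λ) →
    0 < Λ ∧ 0 < η ∧ 32 * η ≤ 1 ∧
    Real.log 2 + 2 * e * Λ + (2 * e + 2 * e1) * Real.log K + Real.log K1 <
      (1 / 4) * Real.log (1 / (48 * η)) := by
  set B : ℝ := (b : ℝ) ^ 2 + 1 with hBdef
  have hB : 1 ≤ B := by
    have := sq_nonneg (b : ℝ)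
    linarith
  have hΛpos : 0 < Λ := lt_of_lt_of_le (Real.exp_pos _) hΛ
  intro e e1 η t t1 K K1 he ht hK he1 ht1 hK1 hη
  have hll : 200 * (B * Real.log ((b : ℝ) + 2)) ≤ Real.log Λ :=
    (Real.le_log_iff_exp_le hΛpos).2 hΛ
  obtain ⟨hl1, hexp, hineq⟩ := explicit_ineq b B _ (Real.log Λ) hBdef rfl hll
  have hΛ1 : 1 ≤ Λ := by
    rw [← Real.exp_log hΛpos]
    exact Real.one_le_exp (by linarith)
  rw [Real.exp_log hΛpos] at hexp hineq
  set l := Real.log Λ with hl
  have hs0 : (0 : ℝ) < 3 + 2 * l := by linarith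
  -- the bound for `log K`
  have hK1' : (1 : ℝ) ≤ K := by
    rw [hK]
    exact_mod_cast Nat.one_le_pow _ _ (Nat.succ_pos _)
  have hLK0 : 0 ≤ Real.log K := Real.log_nonneg hK1'
  have htr : (t : ℝ) + 1 ≤ 5 * Λ ^ 2 := by
    have h := Nat.ceil_lt_add_one (show (0 : ℝ) ≤ 2 * Λ ^ 2 by positivity)
    rw [ht]
    push_cast
    nlinarith
  have hlt : Real.log ((t : ℝ) + 1) ≤ 2 + 2 * l := by
    have h0 : (0 : ℝ) < (t : ℝ) + 1 := by positivity
    have h1 := Real.log_le_log h0 htr
    rw [Real.log_mul (by norm_num) (by positivity), Real.log_pow] at h1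
    have h5 : Real.log 5 ≤ 2 := by
      rw [Real.log_le_iff_le_exp (by norm_num)]
      have := Real.add_one_le_exp (1 : ℝ)
      have h2 : Real.exp 2 = Real.exp 1 * Real.exp 1 := by
        rw [← Real.exp_add]
        norm_num
      have h3 := Real.exp_one_gt_d9
      rw [h2]
      nlinarith
    push_cast at h1
    linarith
  have hLK : Real.log K ≤ B * (3 + 2 * l) := by
    have h := Pool.Agent.H40.VC.Numbers.log_K_le b t
    rw [← hK, ← hBdef] at h
    refine h.trans (mul_le_mul_of_nonneg_left ?_ (by linarith))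
    linarith
  have he1pos : 0 < e1 := by
    rw [he1]
    positivity
  -- the bound for `log K1`
  have ht1r : (t1 : ℝ) + 1 ≤ 200 * B ^ 2 * (3 + 2 * l) := by
    have h := Nat.ceil_lt_add_one (show (0 : ℝ) ≤ 2 * Real.log K / e1 by positivity)
    have h2 : 2 * Real.log K / e1 = 192 * B * Real.log K := by
      rw [he1]
      field_simp
      ring
    rw [h2] at h
    have h3 : (t1 : ℝ) + 1 < 192 * B * Real.log K + 3 := by
      rw [ht1, h2]
      push_cast
      linarith
    have h4 : 192 * B * Real.log K ≤ 192 * B * (B * (3 + 2 * l)) :=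
      mul_le_mul_of_nonneg_left hLK (by positivity)
    have h5 : (3 : ℝ) ≤ 8 * B ^ 2 * (3 + 2 * l) := by
      have : (1 : ℝ) ≤ B ^ 2 := one_le_pow₀ hB
      nlinarith
    nlinarith
  have hLK1 : Real.log K1 ≤ B * (1 + Real.log (200 * B ^ 2 * (3 + 2 * l))) := by
    have h := Pool.Agent.H40.VC.Numbers.log_K_le b t1
    rw [← hK1, ← hBdef] at h
    refine h.trans (mul_le_mul_of_nonneg_left ?_ (by linarith))
    have h0 : (0 : ℝ) < (t1 : ℝ) + 1 := by positivity
    have := Real.log_le_log h0 ht1r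
    linarith
  -- the bound for `η`
  have hηpos : 0 < η := by
    rw [hη, he]
    positivity
  have hη2 : η ≤ B * (3 + 2 * l) / Λ := by
    rw [hη, he, div_add_div _ _ hΛpos.ne' (by positivity), div_le_div_iff₀ (by positivity) hΛpos]
    have h1 : 2 ≤ B * (3 + 2 * l) := by nlinarith
    have h3 : (1 * (2 * Λ) + Λ * Real.log K) * Λ = Λ ^ 2 * (2 + Real.log K) := by ring
    have h4 : B * (3 + 2 * l) * (Λ * (2 * Λ)) = Λ ^ 2 * (B * (3 + 2 * l) + B * (3 + 2 * l)) := by
      ring
    rw [h3, h4]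
    exact mul_le_mul_of_nonneg_left (by linarith) (by positivity)
  refine ⟨hΛpos, hηpos, ?_, ?_⟩
  · calc 32 * η ≤ 32 * (B * (3 + 2 * l) / Λ) := by linarith
      _ = 32 * (B * (3 + 2 * l)) / Λ := by ring
      _ ≤ 1 := by
        rw [div_le_one hΛpos]
        exact hexp
  · have hr1 : l - Real.log (48 * (B * (3 + 2 * l))) ≤ Real.log (1 / (48 * η)) := by
      rw [hl, ← Real.log_div hΛpos.ne' (by positivity)]
      refine Real.log_le_log (by positivity) ?_
      rw [div_le_div_iff₀ (by positivity) (by positivity)]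
      have h := mul_le_mul_of_nonneg_left hη2 (show (0 : ℝ) ≤ 48 * Λ by positivity)
      have h2 : 48 * Λ * (B * (3 + 2 * l) / Λ) = 48 * (B * (3 + 2 * l)) := by
        field_simp
      rw [h2] at h
      linarith
    have hr2 : 2 * e * Λ = 2 := by
      rw [he]
      field_simp
    have hr3 : 2 * e * Real.log K ≤ 2 * (B * (3 + 2 * l)) / Λ := by
      rw [he]
      have h : 2 * (1 / Λ) * Real.log K = 2 * Real.log K / Λ := by ring
      rw [h]
      gcongr
    have hr4 : 2 * e1 * Real.log K ≤ (3 + 2 * l) / 48 := by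
      have h : 2 * e1 * Real.log K ≤ 2 * e1 * (B * (3 + 2 * l)) :=
        mul_le_mul_of_nonneg_left hLK (by positivity)
      have h2 : 2 * e1 * (B * (3 + 2 * l)) = (3 + 2 * l) / 48 := by
        rw [he1]
        field_simp
        ring
      linarith
    have hr5 : (2 * e + 2 * e1) * Real.log K = 2 * e * Real.log K + 2 * e1 * Real.log K := by ring
    rw [hr2, hr5]
    linarith

end Pool.Agent.H51.VC.Num
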