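import Pool.Agent.H24.Ts
import Pool.Agent.H40.VC.FinalS
import Pool.Agent.H51.VC.Num
import Pool.Agent.H31.LB.ESet
import Pool.Agent.H51.TwoLev.Main

set_option autoImplicit false

/-!
# Assembly: lattices of bounded breadth, explicit bound
-/

namespace Pool.Agent.H51.VC.Explicit

open Finset Pool.Agent.H24.Sh

universe u

theorem eq_of_maximal {L : Type*} [Lattice L] [Fintype L] {x y : L}
    (h : ∀ m : L, Maximal SupIrred m → x ⊓ m = y ⊓ m) : x = y := by
  classical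
  have key : ∀ x y : L, (∀ m : L, Maximal SupIrred m → x ⊓ m = y ⊓ m) → x ≤ y := by
    intro x y h
    by_contra hxy
    obtain ⟨c, hc⟩ := (Set.toFinite {c : L | c ≤ x ∧ ¬ c ≤ y}).exists_minimal ⟨x, le_rfl, hxy⟩
    have hirr : SupIrred c := by
      refine ⟨fun hmin => hc.prop.2 ((hmin inf_le_left).trans inf_le_right), ?_⟩
      intro p q hpq
      by_contra hne
      push Not at hne
      have hp : p < c := lt_of_le_of_ne (hpq ▸ le_sup_left) hne.1
      have hq : q < c := lt_of_le_of_ne (hpq ▸ le_sup_right) hne.2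
      have k : ∀ z : L, z < c → z ≤ y := by
        intro z hz
        by_contra hzy
        exact absurd (hc.le_of_le ⟨hz.le.trans hc.prop.1, hzy⟩ hz.le) (not_le_of_gt hz)
      exact hc.prop.2 (hpq ▸ sup_le (k p hp) (k q hq))
    obtain ⟨m, hcm, hm⟩ := (Set.toFinite {x : L | SupIrred x}).exists_le_maximal hirr
    have h1 : c ≤ x ⊓ m := le_inf hc.prop.1 hcm
    rw [h m hm] at h1
    exact hc.prop.2 (h1.trans inf_le_left)
  exact le_antisymm (key x y h) (key y x fun m hm => (h m hm).symm)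

theorem core (b : ℕ) (L : Type*) [Lattice L] [BoundedOrder L] [Fintype L]
    (h : ∀ A : Finset L, (∀ a ∈ A, Maximal SupIrred a) →
      ∃ B ⊆ A, B.card ≤ b ∧ B.sup id = A.sup id)
    (hΛ : Real.exp (200 * (((b : ℝ) ^ 2 + 1) * Real.log ((b : ℝ) + 2))) ≤
      Real.log (Fintype.card L)) :
    ∃ a : L, Maximal SupIrred a ∧ 2 * Nat.card {x : L // a ≤ x} < Nat.card L := by
  classical
  by_contra hcon
  push Not at hcon
  obtain ⟨Λ, hΛdef⟩ : ∃ Λ : ℝ, Λ = Real.log (Fintype.card L) := ⟨_, rfl⟩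
  rw [← hΛdef] at hΛ
  have hΛ1 : 1 < Λ := by
    refine lt_of_lt_of_le (Real.one_lt_exp_iff.2 ?_) hΛ
    have : 0 < Real.log ((b : ℝ) + 2) := Real.log_pos (by
      have : (0 : ℝ) ≤ b := Nat.cast_nonneg b
      linarith)
    positivity
  obtain ⟨e, he⟩ : ∃ e : ℝ, e = 1 / Λ := ⟨_, rfl⟩
  obtain ⟨t, ht⟩ : ∃ t : ℕ, t = ⌈2 * Λ ^ 2⌉₊ + 1 := ⟨_, rfl⟩
  obtain ⟨K, hK⟩ : ∃ K : ℕ, K = ((t + 1) ^ b + 1) ^ b := ⟨_, rfl⟩
  obtain ⟨e1, he1⟩ : ∃ e1 : ℝ, e1 = 1 / (96 * ((b : ℝ) ^ 2 + 1)) := ⟨_, rfl⟩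
  obtain ⟨t1, ht1⟩ : ∃ t1 : ℕ, t1 = ⌈2 * Real.log K / e1⌉₊ + 1 := ⟨_, rfl⟩
  obtain ⟨K1, hK1⟩ : ∃ K1 : ℕ, K1 = ((t1 + 1) ^ b + 1) ^ b := ⟨_, rfl⟩
  obtain ⟨η, hη⟩ : ∃ η : ℝ, η = e + Real.log K / (2 * Λ) := ⟨_, rfl⟩
  obtain ⟨hΛpos, hηpos, h32, hineq⟩ := Pool.Agent.H51.VC.Num.numbers b Λ hΛ e e1 η t t1 K K1
    he ht hK he1 ht1 hK1 hη
  have hepos : 0 < e := by rw [he]; positivity
  have he1pos : 0 < e1 := by rw [he1]; positivity
  have hN2 : 2 ≤ Fintype.card L := by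
    by_contra hlt
    push Not at hlt
    have h1 : (Fintype.card L : ℝ) ≤ 1 := by exact_mod_cast Nat.lt_succ_iff.1 hlt
    have h2 : Real.log (Fintype.card L) ≤ 0 := Real.log_nonpos (Nat.cast_nonneg _) h1
    rw [← hΛdef] at h2
    linarith
  have hNpos : (0 : ℝ) < Fintype.card L := by
    have : 0 < Fintype.card L := by omega
    exact_mod_cast this
  have hNe : Nonempty L := ⟨⊥⟩
  obtain ⟨Mx, hMx⟩ : ∃ Mx : Finset L, Mx = univ.filter (fun a : L => Maximal SupIrred a) :=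
    ⟨_, rfl⟩
  have hMx' : ∀ a, a ∈ Mx ↔ Maximal SupIrred a := by
    intro a
    rw [hMx, Finset.mem_filter]
    exact ⟨fun h => h.2, fun h => ⟨Finset.mem_univ _, h⟩⟩
  -- two levels
  obtain ⟨g, g1, hg, hg1, hge, hge1, hcK, hcK1, hFF⟩ := Pool.Agent.H51.TwoLev.two_levels b Mx
    (fun A hA => h A fun a ha => (hMx' a).1 (hA ha)) e e1 t t1
    (by
      rw [← hΛdef, he, ht]
      push_cast
      have h1 : 2 * Λ ^ 2 ≤ (⌈2 * Λ ^ 2⌉₊ : ℝ) := Nat.le_ceil _
      have h2 : 1 / Λ * (2 * Λ ^ 2) = 2 * Λ := by field_simp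
      have h3 : 0 < 1 / Λ := by positivity
      nlinarith [mul_le_mul_of_nonneg_left h1 h3.le])
    (by
      rw [← hK, ht1]
      push_cast
      have h1 : 2 * Real.log K / e1 ≤ (⌈2 * Real.log K / e1⌉₊ : ℝ) := Nat.le_ceil _
      have h2 : e1 * (2 * Real.log K / e1) = 2 * Real.log K := by field_simp
      nlinarith [mul_le_mul_of_nonneg_left h1 he1pos.le])
  rw [← hK] at hcK
  rw [← hK1] at hcK1
  -- frequencies
  have hfreq : ∀ m ∈ Mx, (1 / 2 : ℝ) * Fintype.card L ≤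
      (((univ : Finset L).filter (fun y => m ≤ y)).card : ℝ) := by
    intro m hm
    have h1 := hcon m ((hMx' m).1 hm)
    rw [Nat.card_eq_fintype_card, Nat.card_eq_fintype_card, Fintype.card_subtype] at h1
    have h2 : (Fintype.card L : ℝ) ≤ 2 * (((univ : Finset L).filter (fun y => m ≤ y)).card : ℝ) := by
      exact_mod_cast h1
    linarith
  -- enumeration of the maximal join-irreducibles
  obtain ⟨j, hj⟩ : ∃ j : Fin Mx.card → L, ∀ i, j i = (Mx.equivFin.symm i : L) := ⟨_, fun _ => rfl⟩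
  have hjM : ∀ i, j i ∈ Mx := fun i => by rw [hj]; exact (Mx.equivFin.symm i).2
  have hjs : ∀ m ∈ Mx, ∃ i, j i = m := fun m hm => ⟨Mx.equivFin ⟨m, hm⟩, by rw [hj]; simp⟩
  have hinj : ∀ x y : L, (∀ i, x ⊓ j i = y ⊓ j i) → x = y := by
    intro x y hxy
    refine eq_of_maximal fun m hm => ?_
    obtain ⟨i, hi⟩ := hjs m ((hMx' m).2 hm)
    rw [← hi]
    exact hxy i
  -- the class maps
  obtain ⟨T, hT⟩ : ∃ T : L → Finset L, ∀ x, T x = Mx.filter (fun m => g m ≤ x) := ⟨_, fun _ => rfl⟩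
  obtain ⟨T1, hT1⟩ : ∃ T1 : L → Finset L, ∀ x, T1 x = Mx.filter (fun m => g1 m ≤ x) :=
    ⟨_, fun _ => rfl⟩
  have hTiff : ∀ x y, T x = T y ↔ ∀ m ∈ Mx, (g m ≤ x ↔ g m ≤ y) := by
    intro x y
    rw [hT, hT, Finset.filter_inj']
  have hT1iff : ∀ x y, T1 x = T1 y ↔ ∀ m ∈ Mx, (g1 m ≤ x ↔ g1 m ≤ y) := by
    intro x y
    rw [hT1, hT1, Finset.filter_inj']
  have hTK : (univ.image T).card ≤ K := by
    have : T = fun x => Mx.filter (fun m => g m ≤ x) := funext hT
    rw [this]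
    exact hcK
  have hT1K : (univ.image T1).card ≤ K1 := by
    have : T1 = fun x => Mx.filter (fun m => g1 m ≤ x) := funext hT1
    rw [this]
    exact hcK1
  have hu : ∀ m ∈ Mx, (1 / 2 - e) * (Fintype.card L : ℝ) ≤
      (((univ : Finset L).filter (fun y => g m ≤ y)).card : ℝ) := by
    intro m hm
    have h1 := hge m hm
    have h2 := hfreq m hm
    linarith
  have hu1 : ∀ m ∈ Mx, (1 / 2 - e - e1) * (Fintype.card L : ℝ) ≤
      (((univ : Finset L).filter (fun y => g1 m ≤ y)).card : ℝ) := by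
    intro m hm
    have h1 := hge1 m hm
    have h2 := hu m hm
    linarith
  have hKpos : (1 : ℝ) ≤ K := by
    have : 1 ≤ K := by rw [hK]; exact Nat.one_le_iff_ne_zero.2 (by positivity)
    exact_mod_cast this
  have hlogK : 0 ≤ Real.log K := Real.log_nonneg hKpos
  have he32 : e ≤ 1 / 32 := by
    have h1 : 0 ≤ Real.log K / (2 * Λ) := by positivity
    linarith
  have he1le : e1 ≤ 1 / 96 := by
    rw [he1]
    apply one_div_le_one_div_of_le (by norm_num)
    nlinarith [sq_nonneg (b : ℝ)]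
  -- the set `E`
  obtain ⟨E, hE1, hE2⟩ := Pool.Agent.H31.LB.eset j (fun i => g (j i)) (fun i => hg _ (hjM i)) hinj
    T (fun x y hxy i => (hTiff x y).1 hxy _ (hjM i)) K
    (by
      have h : (@Finset.image L (Finset L) (fun a b => Classical.propDecidable (a = b)) T univ) =
          univ.image T := by
        ext z
        simp only [Finset.mem_image]
      rw [h]
      exact_mod_cast hTK) e hepos.le hN2
    (fun i => hu _ (hjM i)) (by rw [← hΛdef, ← hη]; exact h32)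
  rw [← hΛdef, ← hη] at hE1
  -- (A)
  have hA := two_step (Ω := L) (I := Fin Mx.card) (fun x y => x ⊓ y) (id : L → L) T
    (fun i x => x ⊓ j i) (fun s => univ.filter (fun i => j i ∈ s)) (1 / 2 - e) (by linarith)
    (fun z z' hz => by rw [show z = z' from hz])
    (fun z z' _ hz => hinj z z' hz)
    (fun x x' y y' hx hy => by
      rw [hTiff] at hx hy ⊢
      intro m hm
      rw [le_inf_iff, le_inf_iff, hx m hm, hy m hm])
    (fun x x' y y' hx hy hxy i hi => by
      rw [Finset.mem_filter, hT, Finset.mem_filter] at hi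
      have h1 : j i ≤ y := (hg _ (hjM i)).trans hi.2.2
      have h2 : j i ≤ y' := (hg _ (hjM i)).trans (((hTiff y y').1 hy _ (hjM i)).1 hi.2.2)
      have h3 : x ⊓ y = x' ⊓ y' := hxy
      calc x ⊓ j i = (x ⊓ y) ⊓ j i := by rw [inf_assoc, inf_eq_right.2 h1]
        _ = (x' ⊓ y') ⊓ j i := by rw [h3]
        _ = x' ⊓ j i := by rw [inf_assoc, inf_eq_right.2 h2])
    (fun x x' y y' hx hy hxy i hi => by
      rw [Finset.mem_filter, hT, Finset.mem_filter] at hi
      have h1 : j i ≤ x := (hg _ (hjM i)).trans hi.2.2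
      have h2 : j i ≤ x' := (hg _ (hjM i)).trans (((hTiff x x').1 hx _ (hjM i)).1 hi.2.2)
      have h3 : x ⊓ y = x' ⊓ y' := hxy
      calc y ⊓ j i = (x ⊓ y) ⊓ j i := by rw [inf_comm x y, inf_assoc, inf_eq_right.2 h1]
        _ = (x' ⊓ y') ⊓ j i := by rw [h3]
        _ = y' ⊓ j i := by rw [inf_comm x' y', inf_assoc, inf_eq_right.2 h2])
    (fun i => by
      refine (hu _ (hjM i)).trans (le_of_eq ?_)
      congr 2
      ext y
      simp only [Finset.mem_filter, Finset.mem_univ, true_and, hT, hjM i])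
  -- (B)
  have hB := two_step (Ω := L) (I := Fin Mx.card) (fun x y => x ⊓ y) T T1
    (fun i x => decide (g (j i) ≤ x)) (fun s => univ.filter (fun i => j i ∈ s))
    (1 / 2 - e - e1) (by linarith)
    (fun z z' hz => (hT1iff z z').2 (hFF z z' ((hTiff z z').1 hz)))
    (fun z z' _ hz => (hTiff z z').2 (fun m hm => by
      obtain ⟨i, hi⟩ := hjs m hm
      have h1 := hz i
      rw [decide_eq_decide, hi] at h1
      exact h1))
    (fun x x' y y' hx hy => by
      rw [hT1iff] at hx hy ⊢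
      intro m hm
      rw [le_inf_iff, le_inf_iff, hx m hm, hy m hm])
    (fun x x' y y' hx hy hxy i hi => by
      rw [Finset.mem_filter, hT1, Finset.mem_filter] at hi
      have h1 : g (j i) ≤ y := (hg1 _ (hjM i)).trans hi.2.2
      have h2 : g (j i) ≤ y' := (hg1 _ (hjM i)).trans (((hT1iff y y').1 hy _ (hjM i)).1 hi.2.2)
      have h3 := (hTiff _ _).1 hxy _ (hjM i)
      simp only [le_inf_iff] at h3
      rw [decide_eq_decide]
      exact ⟨fun h4 => (h3.1 ⟨h4, h1⟩).1, fun h4 => (h3.2 ⟨h4, h2⟩).1⟩)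
    (fun x x' y y' hx hy hxy i hi => by
      rw [Finset.mem_filter, hT1, Finset.mem_filter] at hi
      have h1 : g (j i) ≤ x := (hg1 _ (hjM i)).trans hi.2.2
      have h2 : g (j i) ≤ x' := (hg1 _ (hjM i)).trans (((hT1iff x x').1 hx _ (hjM i)).1 hi.2.2)
      have h3 := (hTiff _ _).1 hxy _ (hjM i)
      simp only [le_inf_iff] at h3
      rw [decide_eq_decide]
      exact ⟨fun h4 => (h3.1 ⟨h1, h4⟩).2, fun h4 => (h3.2 ⟨h2, h4⟩).2⟩)
    (fun i => by
      refine (hu1 _ (hjM i)).trans (le_of_eq ?_)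
      congr 2
      ext y
      simp only [Finset.mem_filter, Finset.mem_univ, true_and, hT1, hjM i])
  -- the end
  have hfin := Pool.Agent.H40.VC.FinalS.final (fun x y : L => x ⊓ y) T T1 e e1 hepos.le he1pos.le
    (by linarith) K K1 hTK hT1K hA hB E hE2
  rw [← hΛdef] at hfin
  have hEpos : (0 : ℝ) < E.card := by
    rcases Finset.eq_empty_or_nonempty E with hE | hE
    · rw [hE] at hE2
      have h0 : (univ.filter (fun p : L × L => p.1 ⊓ p.2 ∈ (∅ : Finset L))).card = 0 := by simp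
      have h1 : (Fintype.card L : ℝ) ^ 2 / 4 ≤ 0 := by
        refine hE2.trans (le_of_eq ?_)
        norm_cast
      have h2 : 0 < (Fintype.card L : ℝ) ^ 2 := by positivity
      linarith
    · exact_mod_cast Finset.card_pos.2 hE
  have h48 : 1 / (48 * η) ≤ (Fintype.card L : ℝ) / E.card := by
    rw [div_le_div_iff₀ (by positivity) hEpos, one_mul]
    have h1 : 0 < η * (Fintype.card L : ℝ) := by positivity
    nlinarith
  have hlog := Real.log_le_log (by positivity) h48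
  have h3 : 0 ≤ 2 * e * Real.log K := by positivity
  linarith

end Pool.Agent.H51.VC.Explicit
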